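import Mathlib

/-!
# The Grigorchuk group, its level quotients, word length and diameter

The vertices of the binary rooted tree are the finite words over `{0, 1}`, written here as
`List Bool` with `false` for `0` and `true` for `1`.
-/

namespace Pool.Agent.Lib.Pb99418

/-- Names of the four generators. -/
inductive Gen : Type
  | a
  | b
  | c
  | d
  deriving DecidableEq

/-- The action of the generators on the vertices of the tree (finite binary words):
`a (x w) = (1 - x) w`, `b (0 w) = 0 a(w)`, `b (1 w) = 1 c(w)`, `c (0 w) = 0 a(w)`,
`c (1 w) = 1 d(w)`, `d (0 w) = 0 w`, `d (1 w) = 1 b(w)`. -/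
def act : Gen → List Bool → List Bool
  | _, [] => []
  | Gen.a, x :: w => (!x) :: w
  | Gen.b, false :: w => false :: act Gen.a w
  | Gen.b, true :: w => true :: act Gen.c w
  | Gen.c, false :: w => false :: act Gen.a w
  | Gen.c, true :: w => true :: act Gen.d w
  | Gen.d, false :: w => false :: w
  | Gen.d, true :: w => true :: act Gen.b w

theorem act_nil (g : Gen) : act g [] = [] := by cases g <;> rfl

theorem act_act (g : Gen) (w : List Bool) : act g (act g w) = w := by
  induction w generalizing g with
  | nil => simp [act_nil]
  | cons x w ih =>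
    cases g <;> cases x <;> simp [act, ih]

theorem length_act (g : Gen) (w : List Bool) : (act g w).length = w.length := by
  induction w generalizing g with
  | nil => simp [act_nil]
  | cons x w ih =>
    cases g <;> cases x <;> simp [act, ih]

/-- The generators as permutations of the set of vertices. -/
def gen (g : Gen) : Equiv.Perm (List Bool) :=
  ⟨act g, act g, act_act g, act_act g⟩

/-- The Grigorchuk group `G = ⟨a, b, c, d⟩`. -/
def G : Subgroup (Equiv.Perm (List Bool)) := Subgroup.closure (Set.range gen)

theorem length_apply (g : Equiv.Perm (List Bool)) (hg : g ∈ G) (w : List Bool) :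
    (g w).length = w.length := by
  induction hg using Subgroup.closure_induction generalizing w with
  | mem x hx =>
    obtain ⟨s, rfl⟩ := hx
    exact length_act s w
  | one => rfl
  | mul x y _ _ hx hy => rw [Equiv.Perm.mul_apply, hx, hy]
  | inv x _ hx =>
    rw [← hx (x⁻¹ w), ← Equiv.Perm.mul_apply, mul_inv_cancel, Equiv.Perm.one_apply]

/-- `st_G(n)`: the subgroup of `G` fixing every vertex of level `n`. -/
def stab (n : ℕ) : Subgroup G where
  carrier := {g | ∀ w : List Bool, w.length = n → (g : Equiv.Perm (List Bool)) w = w}
  one_mem' := fun w _ => rfl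
  mul_mem' := by
    intro g h hg hh w hw
    show (g : Equiv.Perm (List Bool)) ((h : Equiv.Perm (List Bool)) w) = w
    rw [hh w hw, hg w hw]
  inv_mem' := by
    intro g hg w hw
    have h1 := hg (((g⁻¹ : G) : Equiv.Perm (List Bool)) w) (by
      rw [length_apply _ (g⁻¹).2, hw])
    have h2 : (g : Equiv.Perm (List Bool)) (((g⁻¹ : G) : Equiv.Perm (List Bool)) w) = w := by
      simp
    rw [← h1, h2]

instance stab_normal (n : ℕ) : (stab n).Normal where
  conj_mem := by
    intro g hg h w hw
    have h1 := hg (((h⁻¹ : G) : Equiv.Perm (List Bool)) w) (by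
      rw [length_apply _ (h⁻¹).2, hw])
    show (h : Equiv.Perm (List Bool)) ((g : Equiv.Perm (List Bool))
      (((h⁻¹ : G) : Equiv.Perm (List Bool)) w)) = w
    rw [h1]
    simp

/-- The level quotient `G_n = G / st_G(n)`. -/
abbrev Gn (n : ℕ) : Type := G ⧸ stab n

/-- The image of a generator in `G_n`. -/
def gbar (n : ℕ) (g : Gen) : Gn n :=
  QuotientGroup.mk ⟨gen g, Subgroup.subset_closure ⟨g, rfl⟩⟩

/-- The length `|g|` of `g` in `G_n`: the least `k` such that `g` is a product of `k` elements of
`{a, b, c, d}`. -/
noncomputable def len (n : ℕ) (g : Gn n) : ℕ :=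
  sInf {k | ∃ s : List Gen, s.length = k ∧ (s.map (gbar n)).prod = g}

/-- `D_n`: the maximum of the lengths of the elements of `G_n`. -/
noncomputable def D (n : ℕ) : ℕ := sSup (Set.range (len n))

/-- Change the last letter of a word. -/
def flipLast : List Bool → List Bool
  | [] => []
  | [x] => [!x]
  | x :: y :: w => x :: flipLast (y :: w)

/-- The element `g` of `G` acts on level `n` by changing the last letter of every word, that is,
the portrait of its image in `G_n` has the label `1` exactly at the vertices of level `n - 1`. -/
def IsLastFlip (n : ℕ) (g : G) : Prop :=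
  ∀ w : List Bool, w.length = n → (g : Equiv.Perm (List Bool)) w = flipLast w

end Pool.Agent.Lib.Pb99418
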