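import Pool.Agent.Lib.Pb99418.Words

/-!
# Lower bound for the length of `z_n`
-/

namespace Pool.Agent.Lib.Pb99418

open Gen

/-- The generators different from `a`. -/
inductive V3 : Type
  | b
  | c
  | d
  deriving DecidableEq

namespace V3

/-- The corresponding generator. -/
def i : V3 → Gen
  | b => Gen.b
  | c => Gen.c
  | d => Gen.d

/-- The section at `1`. -/
def tl : V3 → V3
  | b => c
  | c => d
  | d => b

/-- The section at `0`. -/
def om : V3 → List Gen
  | b => [Gen.a]
  | c => [Gen.a]
  | d => []

end V3

/-- The word `p₁ a q₁ a p₂ a q₂ a ⋯`. -/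
def PP : List (V3 × V3) → List Gen
  | [] => []
  | (p, q) :: ps => p.i :: a :: q.i :: a :: PP ps

/-- The section of `PP ps` at `1`. -/
def tok : List (V3 × V3) → List Gen
  | [] => []
  | (p, q) :: ps => p.tl.i :: (q.om ++ tok ps)

/-- The section of `PP ps` at `0`. -/
def tok' : List (V3 × V3) → List Gen
  | [] => []
  | (p, q) :: ps => p.om ++ q.tl.i :: tok' ps

/-- Shift by one letter. -/
def sh (q : V3) : List (V3 × V3) → V3 → List (V3 × V3)
  | [], p0 => [(q, p0)]
  | (p, q') :: ps, p0 => (q, p) :: sh q' ps p0

theorem par_PP (ps : List (V3 × V3)) : par (PP ps) = false := by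
  induction ps with
  | nil => rfl
  | cons x ps ih =>
    obtain ⟨p, q⟩ := x
    simp only [PP, par, ih]
    cases p <;> cases q <;> rfl

theorem sec_true_PP (ps : List (V3 × V3)) : sec true (PP ps) = tok ps := by
  induction ps with
  | nil => rfl
  | cons x ps ih =>
    obtain ⟨p, q⟩ := x
    simp only [PP, sec, par, par_PP, ih, tok]
    cases p <;> cases q <;> rfl

theorem sec_false_PP (ps : List (V3 × V3)) : sec false (PP ps) = tok' ps := by
  induction ps with
  | nil => rfl
  | cons x ps ih =>
    obtain ⟨p, q⟩ := x
    simp only [PP, sec, par, par_PP, ih, tok']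
    cases p <;> cases q <;> rfl

theorem tok_append (ps qs : List (V3 × V3)) : tok (ps ++ qs) = tok ps ++ tok qs := by
  induction ps with
  | nil => rfl
  | cons x ps ih =>
    obtain ⟨p, q⟩ := x
    simp [tok, ih]

theorem tok_sh (q : V3) (ps : List (V3 × V3)) (p0 : V3) :
    tok (sh q ps p0) = q.tl.i :: tok' ps ++ p0.om := by
  induction ps generalizing q with
  | nil => simp [sh, tok, tok']
  | cons x ps ih =>
    obtain ⟨p, q'⟩ := x
    simp [sh, tok, tok', ih]

/-! ### Relations among `b, c, d` -/

theorem act_comm3 (x y : V3) (w : List Bool) :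
    act x.i (act y.i w) = act y.i (act x.i w) := by
  induction w generalizing x y with
  | nil => simp [act_nil]
  | cons z w ih =>
    have h := fun x y => ih x y
    cases z
    · cases x <;> cases y <;> simp [V3.i, act]
    · cases x <;> cases y <;> simp only [V3.i, act]
      · exact congrArg (true :: ·) (h V3.c V3.d)
      · exact congrArg (true :: ·) (h V3.c V3.b)
      · exact congrArg (true :: ·) (h V3.d V3.c)
      · exact congrArg (true :: ·) (h V3.d V3.b)
      · exact congrArg (true :: ·) (h V3.b V3.c)
      · exact congrArg (true :: ·) (h V3.b V3.d)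

theorem act_bcd (w : List Bool) : act b (act c w) = act d w ∧ act c (act d w) = act b w ∧
    act d (act b w) = act c w := by
  induction w with
  | nil => simp [act_nil]
  | cons z w ih =>
    obtain ⟨h1, h2, h3⟩ := ih
    cases z
    · simp [act, act_act]
    · refine ⟨?_, ?_, ?_⟩
      · show true :: act c (act d w) = true :: act b w
        rw [h2]
      · show true :: act d (act b w) = true :: act c w
        rw [h3]
      · show true :: act b (act c w) = true :: act d w
        rw [h1]

/-- Multiplication in the Klein four group `{1, b, c, d}`. -/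
def mulO : Option V3 → V3 → Option V3
  | none, v => some v
  | some V3.b, V3.b => none
  | some V3.b, V3.c => some V3.d
  | some V3.b, V3.d => some V3.c
  | some V3.c, V3.b => some V3.d
  | some V3.c, V3.c => none
  | some V3.c, V3.d => some V3.b
  | some V3.d, V3.b => some V3.c
  | some V3.d, V3.c => some V3.b
  | some V3.d, V3.d => none

/-- The word of length at most one of an element of `{1, b, c, d}`. -/
def ol : Option V3 → List Gen
  | none => []
  | some v => [v.i]

theorem run_ol (L : Option V3) (v : V3) (s : List Gen) (w : List Bool) :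
    run (ol L ++ v.i :: s) w = run (ol (mulO L v) ++ s) w := by
  have h := act_bcd (run s w)
  have hbc : act b (act c (run s w)) = act d (run s w) := h.1
  have hcd : act c (act d (run s w)) = act b (run s w) := h.2.1
  have hdb : act d (act b (run s w)) = act c (run s w) := h.2.2
  have hcb : act c (act b (run s w)) = act d (run s w) := by
    rw [← hbc]; exact act_comm3 V3.c V3.b _
  have hdc : act d (act c (run s w)) = act b (run s w) := by
    rw [← hcd]; exact act_comm3 V3.d V3.c _
  have hbd : act b (act d (run s w)) = act c (run s w) := by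
    rw [← hdb]; exact act_comm3 V3.b V3.d _
  cases L with
  | none => rfl
  | some u =>
    cases u <;> cases v <;> simp only [ol, mulO, V3.i, List.cons_append, List.nil_append,
      run_cons] <;> first | assumption | exact act_act _ _

/-! ### Merging -/

section merge

variable (X Y V : ℤ)

/-- Weights of `b, c, d`. -/
def wt : V3 → ℤ
  | V3.b => X
  | V3.c => Y
  | V3.d => V

/-- Potential. -/
def pot : Option V3 → ℤ
  | none => Y + V - X
  | some v => wt X Y V v

/-- Total weight of the sections at `1` of the letters at odd positions. -/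
def S (ps : List (V3 × V3)) : ℤ := (ps.map fun x => wt X Y V x.1.tl).sum

/-- Number of `d`s at even positions. -/
def Dq (ps : List (V3 × V3)) : ℤ := (ps.map fun x => if x.2 = V3.d then (1 : ℤ) else 0).sum

variable {X Y V}

theorem W_ol_le (h4 : X ≤ Y + V) (L : Option V3) :
    W 0 X Y V (ol L) ≤ pot X Y V L := by
  cases L with
  | none => simp [ol, pot]; omega
  | some v => cases v <;> simp [ol, pot, wt, V3.i, W]

theorem pot_mulO (h1 : Y ≤ X) (h2 : V ≤ Y) (L : Option V3) (v : V3) :
    pot X Y V (mulO L v) ≤ pot X Y V L + wt X Y V v - (Y + V - X) := by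
  cases L with
  | none => simp [mulO, pot]
  | some u => cases u <;> cases v <;> simp [mulO, pot, wt] <;> omega

theorem W_i (v : V3) : W 0 X Y V [v.i] = wt X Y V v := by
  cases v <;> simp [W, wt, V3.i]

theorem merge (h1 : Y ≤ X) (h2 : V ≤ Y) (h4 : X ≤ Y + V) (l : List (V3 × V3)) (x : V3 × V3)
    (hx : x.2 ≠ V3.d) :
    (∃ t : List Gen, (∀ w, run t w = run (tok (l ++ [x])) w) ∧
      W 0 X Y V t ≤ S X Y V (l ++ [x]) - (Y + V - X) * Dq (l ++ [x])) ∧
    (∀ L : Option V3, ∃ t : List Gen, (∀ w, run t w = run (ol L ++ tok (l ++ [x])) w) ∧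
      W 0 X Y V t ≤ pot X Y V L + S X Y V (l ++ [x]) - (Y + V - X) * (1 + Dq (l ++ [x]))) := by
  have hom : ∀ q : V3, q ≠ V3.d → q.om = [a] := by
    intro q hq; cases q <;> simp_all [V3.om]
  have hpa : W 0 X Y V [a] = 0 := by simp [W]
  induction l with
  | nil =>
    obtain ⟨p, q⟩ := x
    have hq := hom q hx
    constructor
    · refine ⟨tok [(p, q)], fun w => rfl, ?_⟩
      have hx' : q ≠ V3.d := hx
      simp only [List.nil_append, tok, hq, S, Dq, List.map_cons, List.map_nil, List.sum_cons,
        List.sum_nil, if_neg hx']
      rw [W_cons, W_append, hpa, W_i]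
      simp
    · intro L
      refine ⟨ol (mulO L p.tl) ++ [a], fun w => ?_, ?_⟩
      · simp only [List.nil_append, tok, hq, List.append_nil]
        rw [run_ol]
      · have hx' : q ≠ V3.d := hx
        simp only [List.nil_append, S, Dq, List.map_cons, List.map_nil, List.sum_cons,
          List.sum_nil, if_neg hx']
        rw [W_append, hpa]
        have e1 := W_ol_le h4 (mulO L p.tl)
        have e2 := pot_mulO h1 h2 L p.tl
        linarith
  | cons y l ih =>
    obtain ⟨p, q⟩ := y
    obtain ⟨⟨tf, htf, hWf⟩, hg⟩ := ih
    by_cases hq : q = V3.d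
    · subst hq
      constructor
      · obtain ⟨t, ht, hW⟩ := hg (some p.tl)
        refine ⟨t, fun w => ?_, ?_⟩
        · rw [ht w]; rfl
        · simp only [S, Dq, List.cons_append, List.map_cons, List.sum_cons] at hW ⊢
          simp only [pot] at hW
          simp only [if_true]
          linarith
      · intro L
        obtain ⟨t, ht, hW⟩ := hg (mulO L p.tl)
        refine ⟨t, fun w => ?_, ?_⟩
        · rw [ht w, List.cons_append, tok, run_ol]
          rfl
        · have e2 := pot_mulO h1 h2 L p.tl
          simp only [S, Dq, List.cons_append, List.map_cons, List.sum_cons] at hW ⊢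
          simp only [if_true]
          linarith
    · have hqa := hom q hq
      constructor
      · refine ⟨p.tl.i :: a :: tf, fun w => ?_, ?_⟩
        · rw [List.cons_append, tok, hqa]
          simp [htf]
        · rw [W_cons, W_cons 0 X Y V a, hpa, W_i]
          simp only [S, Dq, List.cons_append, List.map_cons, List.sum_cons, if_neg hq] at hWf ⊢
          linarith
      · intro L
        refine ⟨ol (mulO L p.tl) ++ a :: tf, fun w => ?_, ?_⟩
        · rw [List.cons_append, tok, hqa, run_ol]
          rw [run_append, run_append]
          simp [htf]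
        · rw [W_append, W_cons 0 X Y V a, hpa]
          have e1 := W_ol_le h4 (mulO L p.tl)
          have e2 := pot_mulO h1 h2 L p.tl
          simp only [S, Dq, List.cons_append, List.map_cons, List.sum_cons, if_neg hq] at hWf ⊢
          linarith

end merge

end Pool.Agent.Lib.Pb99418
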