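import Pool.Agent.Lib.Pb99418.Lower

/-!
# Lower bound for the length of `z_n`, continued
-/

namespace Pool.Agent.Lib.Pb99418

open Gen

theorem run_noA (t : List Gen) (ht : ∀ g ∈ t, g ≠ a) (w : List Bool) :
    run t (false :: w) = false :: w ∨ run t (false :: w) = false :: act a w := by
  induction t with
  | nil => left; rfl
  | cons g t ih =>
    have hg : g ≠ a := ht g (by simp)
    rcases ih (fun g hg => ht g (by simp [hg])) with h | h
    · rw [run_cons, h]
      cases g
      · exact absurd rfl hg
      · right; rfl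
      · right; rfl
      · left; rfl
    · rw [run_cons, h]
      cases g
      · exact absurd rfl hg
      · left; simp [act, act_act]
      · left; simp [act, act_act]
      · right; rfl

theorem not_isZ_noA {n : ℕ} (hn : 3 ≤ n) (t : List Gen) (ht : ∀ g ∈ t, g ≠ a) : ¬ IsZ n t := by
  intro h
  have h1 := h (false :: false :: false :: List.replicate (n - 3) false) (by simp; omega)
  have h2 := run_noA t ht (false :: false :: List.replicate (n - 3) false)
  rw [h1] at h2
  rw [flipLast_cons _ _ (by simp), flipLast_cons _ _ (by simp)] at h2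
  have h3 : flipLast (false :: List.replicate (n - 3) false) =
      false :: List.replicate (n - 3) false := by
    rcases h2 with h2 | h2
    · simpa using h2
    · simp at h2
  have h4 : ∀ w : List Bool, w ≠ [] → flipLast w ≠ w := by
    intro w
    induction w with
    | nil => simp
    | cons x w ih =>
      intro _ hw
      cases w with
      | nil => simp [flipLast] at hw
      | cons y w =>
        rw [flipLast_cons _ _ (by simp)] at hw
        exact ih (by simp) (List.cons.inj hw).2
  exact h4 _ (by simp) h3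

theorem exists_nd {n : ℕ} (hn : 3 ≤ n) (ps : List (V3 × V3)) (h : IsZ n (tok ps)) :
    ∃ x ∈ ps, x.2 ≠ V3.d := by
  by_contra hcon
  push Not at hcon
  refine not_isZ_noA hn _ ?_ h
  clear h
  induction ps with
  | nil => simp [tok]
  | cons y ps ih =>
    obtain ⟨p, q⟩ := y
    have hq : q = V3.d := hcon (p, q) (by simp)
    subst hq
    intro g hg
    simp only [tok, V3.om, List.nil_append, List.mem_cons] at hg
    rcases hg with hg | hg
    · rw [hg]; cases p <;> simp [V3.tl, V3.i]
    · exact ih (fun x hx => hcon x (by simp [hx])) g hg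

theorem S_append (X Y V : ℤ) (l r : List (V3 × V3)) :
    S X Y V (l ++ r) = S X Y V l + S X Y V r := by simp [S]

theorem Dq_append (l r : List (V3 × V3)) : Dq (l ++ r) = Dq l + Dq r := by simp [Dq]

theorem bound1 {n : ℕ} (hn : 3 ≤ n) {X Y V M : ℤ} (h1 : Y ≤ X) (h2 : V ≤ Y) (h4 : X ≤ Y + V)
    (hM : ∀ t, IsZ n t → M ≤ W 0 X Y V t) (ps : List (V3 × V3)) (h : IsZ n (tok ps)) :
    M ≤ S X Y V ps - (Y + V - X) * Dq ps := by
  obtain ⟨x, hx, hxd⟩ := exists_nd hn ps h
  obtain ⟨l1, l2, rfl⟩ := List.append_of_mem hx
  have h' : IsZ n (tok ((l2 ++ l1) ++ [x])) := by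
    have e : l1 ++ x :: l2 = (l1 ++ [x]) ++ l2 := by simp
    rw [e, tok_append] at h
    have := h.rotate
    rwa [← tok_append, ← List.append_assoc] at this
  obtain ⟨⟨t, ht, hW⟩, -⟩ := merge h1 h2 h4 (l2 ++ l1) x hxd
  have h3 := hM t (h'.congr ht)
  refine h3.trans (hW.trans ?_)
  have e1 : S X Y V (l2 ++ l1 ++ [x]) = S X Y V (l1 ++ x :: l2) := by
    have e : l1 ++ x :: l2 = (l1 ++ [x]) ++ l2 := by simp
    rw [e]; simp only [S_append]; ring
  have e2 : Dq (l2 ++ l1 ++ [x]) = Dq (l1 ++ x :: l2) := by
    have e : l1 ++ x :: l2 = (l1 ++ [x]) ++ l2 := by simp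
    rw [e]; simp only [Dq_append]; ring
  rw [e1, e2]

theorem S_sh (X Y V : ℤ) (q : V3) (ps : List (V3 × V3)) (p0 : V3) :
    S X Y V (sh q ps p0) = wt X Y V q.tl + (ps.map fun x => wt X Y V x.2.tl).sum := by
  induction ps generalizing q with
  | nil => simp [sh, S]
  | cons x ps ih =>
    obtain ⟨p, q'⟩ := x
    have := ih q'
    simp only [S] at this
    simp only [sh, S, List.map_cons, List.sum_cons, this]

theorem Dq_sh (q : V3) (ps : List (V3 × V3)) (p0 : V3) :
    Dq (sh q ps p0) = (if p0 = V3.d then (1 : ℤ) else 0) +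
      (ps.map fun x => if x.1 = V3.d then (1 : ℤ) else 0).sum := by
  induction ps generalizing q with
  | nil => simp [sh, Dq]
  | cons x ps ih =>
    obtain ⟨p, q'⟩ := x
    have := ih q'
    simp only [Dq] at this
    simp only [sh, Dq, List.map_cons, List.sum_cons, this]
    ring

/-- The parent inequality. -/
theorem bound2 {n : ℕ} (hn : 3 ≤ n) {X Y V M : ℤ} (h1 : Y ≤ X) (h2 : V ≤ Y) (h4 : X ≤ Y + V)
    (hM : ∀ t, IsZ n t → M ≤ W 0 X Y V t) (ps : List (V3 × V3)) (h : IsZ (n + 1) (PP ps)) :
    2 * M ≤ W 0 Y V (2 * X - Y - V) (PP ps) := by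
  have ht := h.sec (by omega) true
  have hf := h.sec (by omega) false
  rw [sec_true_PP] at ht
  rw [sec_false_PP] at hf
  have b1 := bound1 hn h1 h2 h4 hM ps ht
  cases ps with
  | nil =>
    exact absurd ht (not_isZ_noA hn _ (by simp [tok]))
  | cons x ps =>
    obtain ⟨p, q⟩ := x
    have hr : IsZ n (tok (sh q ps p)) := by
      rw [tok_sh]
      have : IsZ n (p.om ++ (q.tl.i :: tok' ps)) := hf
      exact this.rotate
    have b2 := bound1 hn h1 h2 h4 hM _ hr
    rw [S_sh, Dq_sh] at b2
    have key : ∀ l : List (V3 × V3), W 0 Y V (2 * X - Y - V) (PP l) =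
        (l.map fun x => wt X Y V x.1.tl).sum + (l.map fun x => wt X Y V x.2.tl).sum
        - (Y + V - X) * ((l.map fun x => if x.2 = V3.d then (1 : ℤ) else 0).sum +
          (l.map fun x => if x.1 = V3.d then (1 : ℤ) else 0).sum) := by
      intro l
      induction l with
      | nil => simp [PP]
      | cons y l ih =>
        obtain ⟨p, q⟩ := y
        simp only [PP, List.map_cons, List.sum_cons]
        rw [W_cons _ _ _ _ p.i (a :: q.i :: a :: PP l), W_cons _ _ _ _ a (q.i :: a :: PP l),
          W_cons _ _ _ _ q.i (a :: PP l), W_cons _ _ _ _ a (PP l), ih]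
        cases p <;> cases q <;> simp [W, V3.i, V3.tl, wt] <;> ring
    rw [key]
    simp only [S, Dq, List.map_cons, List.sum_cons] at b1 b2 ⊢
    linarith

/-! ### Cyclic reduction -/

/-- The word `z₁ a z₂ a ⋯`. -/
def P1 : List V3 → List Gen
  | [] => []
  | z :: zs => z.i :: a :: P1 zs

theorem P1_append (l r : List V3) : P1 (l ++ r) = P1 l ++ P1 r := by
  induction l with
  | nil => rfl
  | cons z l ih => simp [P1, ih]

/-- Optional letters. -/
def oa : Bool → List Gen
  | true => [a]
  | false => []

/-- Every word either has two adjacent letters of the same kind, or alternates. -/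
theorem alt_or_red (s : List Gen) :
    (∃ (u v : List Gen) (x y : Gen), s = u ++ x :: y :: v ∧ ((x = a) ↔ (y = a))) ∨
    (∃ (e : Bool) (zs : List V3) (f : Option V3), s = oa e ++ P1 zs ++ ol f) := by
  induction s with
  | nil => right; exact ⟨false, [], none, rfl⟩
  | cons g s ih =>
    rcases ih with ⟨u, v, x, y, rfl, hxy⟩ | ⟨e, zs, f, rfl⟩
    · left; exact ⟨g :: u, v, x, y, rfl, hxy⟩
    · have hi : g ≠ a → ∃ z : V3, g = z.i := by
        intro hg
        cases g
        · exact absurd rfl hg
        · exact ⟨V3.b, rfl⟩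
        · exact ⟨V3.c, rfl⟩
        · exact ⟨V3.d, rfl⟩
      have hna : ∀ z : V3, z.i ≠ a := by intro z; cases z <;> simp [V3.i]
      by_cases hg : g = a
      · subst hg
        cases e with
        | true =>
          left; exact ⟨[], P1 zs ++ ol f, a, a, rfl, by simp⟩
        | false => right; exact ⟨true, zs, f, rfl⟩
      · obtain ⟨z, rfl⟩ := hi hg
        cases e with
        | true => right; exact ⟨false, z :: zs, f, rfl⟩
        | false =>
          cases zs with
          | cons z' zs =>
            left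
            exact ⟨[], a :: (P1 zs ++ ol f), z.i, z'.i, rfl, by simp [hna]⟩
          | nil =>
            cases f with
            | none => right; exact ⟨false, [], some z, rfl⟩
            | some z' => left; exact ⟨[], [], z.i, z'.i, rfl, by simp [hna]⟩

theorem P1_even (zs : List V3) (h : par (P1 zs) = false) : ∃ ps, P1 zs = PP ps := by
  have key : ∀ n : ℕ, ∀ zs : List V3, zs.length = n → par (P1 zs) = false →
      ∃ ps, P1 zs = PP ps := by
    intro n
    induction n using Nat.strong_induction_on with
    | _ n ih =>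
      intro zs hn h
      match zs, hn, h with
      | [], _, _ => exact ⟨[], rfl⟩
      | [z], _, h => exfalso; revert h; cases z <;> decide
      | z :: z' :: zs, hn, h =>
        have h' : par (P1 zs) = false := by
          revert h
          simp only [P1, par]
          cases par (P1 zs) <;> cases z <;> cases z' <;> simp [V3.i, pg]
        obtain ⟨ps, hps⟩ := ih zs.length (by simp at hn; omega) zs rfl h'
        exact ⟨(z, z') :: ps, by simp [P1, PP, hps]⟩
  exact key _ zs rfl h

theorem reduce_pair (x y : Gen) (hxy : (x = a) ↔ (y = a)) :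
    ∃ t : List Gen, t.length < 2 ∧ (∀ w, run t w = run [x, y] w) ∧
      ∀ p q r : ℤ, 0 ≤ p → 0 ≤ q → 0 ≤ r → p ≤ q + r → q ≤ p + r → r ≤ p + q →
        W 0 p q r t ≤ W 0 p q r [x, y] := by
  have hbcd := fun w => act_bcd w
  have hW : ∀ (p q r : ℤ) (x y : Gen), W 0 p q r [x, y] = W 0 p q r [x] + W 0 p q r [y] := by
    intro p q r x y; exact W_cons _ _ _ _ _ _
  have hcom := act_comm3
  by_cases hx : x = a
  · have hy := hxy.1 hx
    subst hx; subst hy
    refine ⟨[], by simp, fun w => by simp [act_act], fun p q r _ _ _ _ _ _ => by simp [W]⟩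
  · have hy : y ≠ a := fun h => hx (hxy.2 h)
    have hi : ∀ g : Gen, g ≠ a → ∃ z : V3, g = z.i := by
      intro g hg
      cases g
      · exact absurd rfl hg
      · exact ⟨V3.b, rfl⟩
      · exact ⟨V3.c, rfl⟩
      · exact ⟨V3.d, rfl⟩
    obtain ⟨u, rfl⟩ := hi x hx
    obtain ⟨v, rfl⟩ := hi y hy
    refine ⟨ol (mulO (some u) v), ?_, fun w => ?_, fun p q r hp hq hr h1 h2 h3 => ?_⟩
    · cases mulO (some u) v <;> simp [ol]
    · have := run_ol (some u) v [] w
      simp only [List.append_nil] at this
      rw [← this]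
      rfl
    · cases u <;> cases v <;> simp [mulO, ol, V3.i, W] <;> omega

theorem cyc_red {n : ℕ} (hn : 3 ≤ n) (s : List Gen) (h : IsZ n s) :
    ∃ ps, IsZ n (PP ps) ∧ (PP ps).length ≤ s.length ∧
      ∀ p q r : ℤ, 0 ≤ p → 0 ≤ q → 0 ≤ r → p ≤ q + r → q ≤ p + r → r ≤ p + q →
        W 0 p q r (PP ps) ≤ W 0 p q r s := by
  have main : ∀ k : ℕ, ∀ s : List Gen, s.length = k → IsZ n s →
      ∃ ps, IsZ n (PP ps) ∧ (PP ps).length ≤ s.length ∧
      ∀ p q r : ℤ, 0 ≤ p → 0 ≤ q → 0 ≤ r → p ≤ q + r → q ≤ p + r → r ≤ p + q →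
        W 0 p q r (PP ps) ≤ W 0 p q r s := by
    intro k
    induction k using Nat.strong_induction_on with
    | _ k ih =>
      intro s hk h
      have hred : ∀ (u v : List Gen) (x y : Gen), ((x = a) ↔ (y = a)) →
          (u ++ x :: y :: v).length = s.length → IsZ n (u ++ x :: y :: v) →
          (∀ p q r : ℤ, W 0 p q r (u ++ x :: y :: v) = W 0 p q r s) →
          ∃ ps, IsZ n (PP ps) ∧ (PP ps).length ≤ s.length ∧
            ∀ p q r : ℤ, 0 ≤ p → 0 ≤ q → 0 ≤ r → p ≤ q + r → q ≤ p + r → r ≤ p + q →
            W 0 p q r (PP ps) ≤ W 0 p q r s := by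
        intro u v x y hxy hlen hz hWs
        obtain ⟨t, ht1, ht2, ht3⟩ := reduce_pair x y hxy
        have hlen' : (u ++ (t ++ v)).length < k := by
          simp only [List.length_append, List.length_cons] at hlen ⊢
          omega
        have hz' : IsZ n (u ++ (t ++ v)) := by
          refine hz.congr fun w => ?_
          rw [run_append, run_append, ht2, run_append]
          simp
        obtain ⟨ps, g1, g2, g3⟩ := ih _ hlen' (u ++ (t ++ v)) rfl hz'
        refine ⟨ps, g1, by omega, fun p q r a1 a2 a3 a4 a5 a6 => ?_⟩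
        refine (g3 p q r a1 a2 a3 a4 a5 a6).trans ?_
        rw [← hWs, W_append, W_append, W_append]
        have e := ht3 p q r a1 a2 a3 a4 a5 a6
        have e2 : W 0 p q r (x :: y :: v) = W 0 p q r [x, y] + W 0 p q r v := by
          rw [← W_append]; rfl
        linarith
      rcases alt_or_red s with ⟨u, v, x, y, hs, hxy⟩ | ⟨e, zs, f, hs⟩
      · exact hred u v x y hxy (by rw [hs]) (by rwa [← hs]) (fun p q r => by rw [← hs])
      · have hfin : ∀ zs' : List V3, IsZ n (P1 zs') → (P1 zs').length = s.length →
            (∀ p q r : ℤ, W 0 p q r (P1 zs') = W 0 p q r s) →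
            ∃ ps, IsZ n (PP ps) ∧ (PP ps).length ≤ s.length ∧
            ∀ p q r : ℤ, 0 ≤ p → 0 ≤ q → 0 ≤ r → p ≤ q + r → q ≤ p + r → r ≤ p + q →
            W 0 p q r (PP ps) ≤ W 0 p q r s := by
          intro zs' h1 h2 h3
          obtain ⟨ps, hps⟩ := P1_even zs' (h1.par (by omega))
          exact ⟨ps, by rwa [← hps], by rw [← hps, h2], fun p q r _ _ _ _ _ _ => by
            rw [← hps, h3]⟩
        have hna : ∀ z : V3, z.i ≠ a := by intro z; cases z <;> simp [V3.i]
        cases e with
        | true =>
          cases f with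
          | some z =>
            have e1 : s = [a] ++ (P1 zs ++ [z.i]) := by rw [hs]; simp [oa, ol]
            have e2 : P1 (zs ++ [z]) = (P1 zs ++ [z.i]) ++ [a] := by
              rw [P1_append]; simp [P1]
            refine hfin (zs ++ [z]) ?_ ?_ ?_
            · rw [e2]; rw [e1] at h; exact h.rotate
            · rw [e2, e1]
              simp only [List.length_append, List.length_cons, List.length_nil]; omega
            · intro p q r; rw [e2, e1, W_append, W_append _ _ _ _ [a]]; ring
          | none =>
            have e1 : s = [a] ++ P1 zs := by rw [hs]; simp [oa, ol]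
            rcases List.eq_nil_or_concat' zs with rfl | ⟨zs', z, rfl⟩
            · exfalso
              have := h.par (by omega)
              rw [e1] at this
              simp [P1, par, pg] at this
            · have e2 : P1 (zs' ++ [z]) ++ [a] = (P1 zs' ++ [z.i]) ++ a :: a :: [] := by
                rw [P1_append]; simp [P1]
              refine hred (P1 zs' ++ [z.i]) [] a a (by simp) ?_ ?_ ?_
              · rw [← e2, e1]
                simp only [List.length_append, List.length_cons, List.length_nil]; omega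
              · rw [← e2]; rw [e1] at h; exact h.rotate
              · intro p q r; rw [← e2, e1, W_append, W_append _ _ _ _ [a]]; ring
        | false =>
          cases f with
          | none =>
            have e1 : s = P1 zs := by rw [hs]; simp [oa, ol]
            exact hfin zs (by rwa [← e1]) (by rw [e1]) (fun p q r => by rw [e1])
          | some z =>
            have e1 : s = P1 zs ++ [z.i] := by rw [hs]; simp [oa, ol]
            cases zs with
            | nil =>
              exfalso
              rw [e1] at h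
              refine not_isZ_noA hn _ ?_ h
              intro g hg
              simp [P1] at hg
              rw [hg]; exact hna z
            | cons z' zs =>
              have e2 : [z.i] ++ P1 (z' :: zs) = [] ++ z.i :: z'.i :: (a :: P1 zs) := rfl
              refine hred [] (a :: P1 zs) z.i z'.i (by simp [hna]) ?_ ?_ ?_
              · rw [← e2, e1]
                simp only [List.length_append, List.length_cons, List.length_nil]; omega
              · rw [← e2]; rw [e1] at h; exact h.rotate
              · intro p q r; rw [← e2, e1, W_append, W_append _ _ _ _ (P1 _)]; ring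
  exact main _ s rfl h

/-! ### The base case -/

theorem base1 (s : List Gen) (h : IsZ 1 s) : 1 ≤ W 1 0 0 0 s := by
  by_contra hcon
  have h0 : W 1 0 0 0 s = 0 := by
    have := W_nonneg (wa := 1) (wb := 0) (wc := 0) (wd := 0) (by norm_num) le_rfl le_rfl le_rfl s
    omega
  have hpar : ∀ s : List Gen, W 1 0 0 0 s = 0 → par s = false := by
    intro s
    induction s with
    | nil => intro _; rfl
    | cons g s ih =>
      intro hs
      rw [W_cons] at hs
      have h1 := W_nonneg (wa := 1) (wb := 0) (wc := 0) (wd := 0) (by norm_num) le_rfl le_rfl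
        le_rfl s
      have h2 := W_nonneg (wa := 1) (wb := 0) (wc := 0) (wd := 0) (by norm_num) le_rfl le_rfl
        le_rfl [g]
      have h3 : W 1 0 0 0 [g] = 0 := by omega
      have h4 := ih (by omega)
      cases g <;> simp_all [par, pg, W]
  have h1 := h [false] rfl
  rw [run_cons_word, hpar s h0] at h1
  simp [flipLast] at h1

theorem base2 (s : List Gen) (h : IsZ 2 s) : 2 ≤ W 0 1 1 0 s ∧ 2 ≤ W 1 0 0 0 s := by
  have hs := W_sec 1 0 0 0 s
  have hf := base1 _ (h.sec le_rfl false)
  have ht := base1 _ (h.sec le_rfl true)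
  constructor
  · norm_num at hs
    omega
  · have hp := h.par le_rfl
    -- the number of `a`s is even and positive
    have heven : ∀ s : List Gen, ∃ k : ℤ, W 1 0 0 0 s = 2 * k + (if par s then 1 else 0) := by
      intro s
      induction s with
      | nil => exact ⟨0, by simp [par]⟩
      | cons g s ih =>
        obtain ⟨k, hk⟩ := ih
        rw [W_cons, hk]
        cases hps : par s <;> cases g <;> simp [par, pg, W, hps]
        all_goals first | exact ⟨k, by omega⟩ | exact ⟨k + 1, by omega⟩
    obtain ⟨k, hk⟩ := heven s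
    rw [hp] at hk
    simp only [Bool.false_eq_true, if_false, add_zero] at hk
    by_contra hcon
    have h0 := W_nonneg (wa := 1) (wb := 0) (wc := 0) (wd := 0) (by norm_num) le_rfl le_rfl
      le_rfl s
    have hz : W 1 0 0 0 s = 0 := by omega
    have key : ∀ s : List Gen, W 1 0 0 0 s = 0 →
        par s = false ∧ W 1 0 0 0 (sec true s) = 0 := by
      intro s
      induction s with
      | nil => intro _; simp [par, sec]
      | cons g s ih =>
        intro hs
        rw [W_cons] at hs
        have h1 := W_nonneg (wa := 1) (wb := 0) (wc := 0) (wd := 0) (by norm_num) le_rfl le_rfl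
          le_rfl s
        have h2 := W_nonneg (wa := 1) (wb := 0) (wc := 0) (wd := 0) (by norm_num) le_rfl le_rfl
          le_rfl [g]
        have h3 : W 1 0 0 0 [g] = 0 := by omega
        obtain ⟨h4, h5⟩ := ih (by omega)
        have hg : g ≠ a := by rintro rfl; simp [W] at h3
        refine ⟨?_, ?_⟩
        · cases g <;> simp_all [par, pg]
        · simp only [sec, h4]
          rw [W_append, h5]
          cases g <;> simp_all [secG, W]
    have := (key s hz).2
    omega

theorem base3 (s : List Gen) (h : IsZ 3 s) : 4 ≤ W 0 1 0 1 s ∧ 4 ≤ W 0 1 1 0 s := by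
  have hf := base2 _ (h.sec (by norm_num) false)
  have ht := base2 _ (h.sec (by norm_num) true)
  have hs1 := W_sec 0 1 1 0 s
  have hs2 := W_sec 1 0 0 0 s
  norm_num at hs1 hs2
  constructor
  · omega
  · omega

/-! ### The numbers of letters of the words representing `z_n` -/

/-- The numbers of letters `b, c, d` in the shortest word for `z_{k+3}`. -/
def cs : ℕ → ℤ × ℤ × ℤ
  | 0 => (4, 0, 0)
  | k + 1 => ((cs k).1 + 2 * (cs k).2.1, (cs k).1 + 2 * (cs k).2.2, (cs k).1)

theorem lower (k : ℕ) (s : List Gen) (h : IsZ (k + 3) s) (p q r : ℤ) (hr : 0 ≤ r) (hqr : r ≤ q)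
    (hpq : q ≤ p) (hp : p ≤ q + r) :
    (cs k).1 * p + (cs k).2.1 * q + (cs k).2.2 * r ≤ W 0 p q r s := by
  induction k generalizing s p q r with
  | zero =>
    obtain ⟨h1, h2⟩ := base3 s h
    simp only [cs]
    -- W 0 p q r s = p β + q γ + r δ
    have e1 : W 0 p q r s = p * W 0 1 0 0 s + q * W 0 0 1 0 s + r * W 0 0 0 1 s := by
      rw [← W_smul, ← W_smul, ← W_smul, ← W_add, ← W_add]
      congr 1 <;> ring
    have e2 : W 0 1 0 1 s = W 0 1 0 0 s + W 0 0 0 1 s := by
      rw [← W_add]; norm_num
    have e3 : W 0 1 1 0 s = W 0 1 0 0 s + W 0 0 1 0 s := by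
      rw [← W_add]; norm_num
    have n1 : 0 ≤ W 0 1 0 0 s := W_nonneg le_rfl (by norm_num) le_rfl le_rfl s
    have n2 : 0 ≤ W 0 0 1 0 s := W_nonneg le_rfl le_rfl (by norm_num) le_rfl s
    have n3 : 0 ≤ W 0 0 0 1 s := W_nonneg le_rfl le_rfl le_rfl (by norm_num) s
    rw [e2] at h1
    rw [e3] at h2
    rw [e1]
    generalize W 0 1 0 0 s = β at *
    generalize W 0 0 1 0 s = γ at *
    generalize W 0 0 0 1 s = δ at *
    have hq0 : 0 ≤ q := hr.trans hqr
    have hp0 : 0 ≤ p := hq0.trans hpq
    by_cases hβ : 4 ≤ β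
    · nlinarith [mul_nonneg hq0 n2, mul_nonneg hr n3]
    · have hβ' : 0 ≤ 4 - β := by omega
      nlinarith [mul_nonneg hβ' (sub_nonneg.2 hp), mul_nonneg hq0 (by omega : 0 ≤ γ - (4 - β)),
        mul_nonneg hr (by omega : 0 ≤ δ - (4 - β))]
  | succ k ih =>
    obtain ⟨ps, h1, -, h3⟩ := cyc_red (by omega) s h
    have hW := h3 p q r (by omega) (by omega) hr hp (by omega) (by omega)
    refine le_trans ?_ hW
    have hb := bound2 (n := k + 3) (by omega) (X := p + q + r) (Y := 2 * p) (V := 2 * q)
      (M := (cs k).1 * (p + q + r) + (cs k).2.1 * (2 * p) + (cs k).2.2 * (2 * q))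
      (by omega) (by omega) (by omega)
      (fun t ht => ih t ht (p + q + r) (2 * p) (2 * q) (by omega) (by omega) (by omega) (by omega))
      ps h1
    have e : W 0 (2 * p) (2 * q) (2 * (p + q + r) - 2 * p - 2 * q) (PP ps) =
        2 * W 0 p q r (PP ps) := by
      rw [← W_smul]
      congr 1 <;> ring
    rw [e] at hb
    simp only [cs]
    linarith

theorem lower_length (k : ℕ) (s : List Gen) (h : IsZ (k + 3) s) :
    2 * ((cs k).1 + (cs k).2.1 + (cs k).2.2) ≤ (s.length : ℤ) := by
  obtain ⟨ps, h1, h2, -⟩ := cyc_red (by omega) s h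
  have hl := lower k _ h1 1 1 1 (by norm_num) le_rfl le_rfl (by norm_num)
  have e : ((PP ps).length : ℤ) = 2 * W 0 1 1 1 (PP ps) := by
    clear h1 h2 hl h
    induction ps with
    | nil => simp [PP]
    | cons x ps ih =>
      obtain ⟨p, q⟩ := x
      simp only [PP, List.length_cons, Nat.cast_add, Nat.cast_one, ih]
      rw [W_cons _ _ _ _ p.i (a :: q.i :: a :: PP ps), W_cons _ _ _ _ a (q.i :: a :: PP ps),
        W_cons _ _ _ _ q.i (a :: PP ps), W_cons _ _ _ _ a (PP ps)]
      cases p <;> cases q <;> simp [W, V3.i] <;> ring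
  have h2' : ((PP ps).length : ℤ) ≤ s.length := by exact_mod_cast h2
  rw [e] at h2'
  linarith

end Pool.Agent.Lib.Pb99418
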