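import Pool.Agent.Lib.Pb99418.Lower2

/-!
# Shortest words for `z_n`, and the translation to the quotient groups `G_n`
-/

namespace Pool.Agent.Lib.Pb99418

open Gen

/-- The lift `c ↦ bb`, `d ↦ cc`, `b ↦ bdc`. -/
def tau : List V3 → List V3
  | [] => []
  | V3.b :: zs => V3.b :: V3.d :: V3.c :: tau zs
  | V3.c :: zs => V3.b :: V3.b :: tau zs
  | V3.d :: zs => V3.c :: V3.c :: tau zs

/-- Parity of the number of `b`s. -/
def pb : List V3 → Bool
  | [] => false
  | V3.b :: zs => !(pb zs)
  | V3.c :: zs => pb zs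
  | V3.d :: zs => pb zs

theorem pb_tau (zs : List V3) : pb (tau zs) = pb zs := by
  induction zs with
  | nil => rfl
  | cons z zs ih => cases z <;> simp [tau, pb, ih]

theorem tau_run (zs : List V3) (w : List Bool) :
    (run (P1 (tau zs)) (true :: w) =
      if pb zs then false :: act a (run (P1 zs) w) else true :: run (P1 zs) w) ∧
    (run (P1 (tau zs)) (false :: w) =
      if pb zs then true :: run (P1 zs) (act a w) else false :: act a (run (P1 zs) (act a w))) := by
  induction zs with
  | nil => simp [tau, P1, pb, act_act]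
  | cons z zs ih =>
    obtain ⟨h1, h2⟩ := ih
    by_cases hp : pb zs = true
    · simp only [hp, if_true] at h1 h2
      cases z <;> simp [tau, P1, pb, V3.i, h1, h2, hp, act, (act_bcd _).2.1]
    · simp only [hp] at h1 h2
      cases z <;> simp [tau, P1, pb, V3.i, h1, h2, hp, act, (act_bcd _).2.1]

theorem isZ_tau {n : ℕ} (hn : 1 ≤ n) (zs : List V3) (hp : pb zs = false) (h : IsZ n (P1 zs)) :
    IsZ (n + 1) (P1 (tau zs)) := by
  intro w hw
  cases w with
  | nil => simp at hw
  | cons x w =>
    have hw' : w.length = n := by simpa using hw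
    have hne : w ≠ [] := by
      intro h0
      rw [h0] at hw'
      simp at hw'
      omega
    rw [flipLast_cons _ _ hne]
    obtain ⟨h1, h2⟩ := tau_run zs w
    cases x
    · rw [h2, hp]
      simp only [Bool.false_eq_true, if_false]
      rw [h (act a w) (by rw [length_act, hw']), flipLast_act, act_act]
    · rw [h1, hp]
      simp only [Bool.false_eq_true, if_false]
      rw [h w hw']

/-- The word for `z_{k+3}`. -/
def zsn : ℕ → List V3
  | 0 => [V3.b, V3.b, V3.b, V3.b]
  | k + 1 => tau (zsn k)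

theorem pb_zsn (k : ℕ) : pb (zsn k) = false := by
  induction k with
  | zero => rfl
  | succ k ih => rw [zsn, pb_tau, ih]

theorem isZ_zsn (k : ℕ) : IsZ (k + 3) (P1 (zsn k)) := by
  induction k with
  | zero =>
    intro w hw
    match w, hw with
    | [x, y, z], _ => revert x y z; decide
  | succ k ih => exact isZ_tau (by omega) _ (pb_zsn k) ih

theorem count_tau (p q r : ℤ) (zs : List V3) :
    W 0 p q r (P1 (tau zs)) = W 0 (p + q + r) (2 * p) (2 * q) (P1 zs) := by
  induction zs with
  | nil => rfl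
  | cons z zs ih =>
    cases z <;> simp [W, P1, tau, V3.i] at ih ⊢ <;> rw [ih] <;> ring

theorem count_zsn (k : ℕ) (p q r : ℤ) :
    W 0 p q r (P1 (zsn k)) = (cs k).1 * p + (cs k).2.1 * q + (cs k).2.2 * r := by
  induction k generalizing p q r with
  | zero => simp [zsn, P1, W, cs, V3.i]; ring
  | succ k ih => rw [zsn, count_tau, ih]; simp only [cs]; ring

theorem length_P1 (zs : List V3) : ((P1 zs).length : ℤ) = 2 * W 0 1 1 1 (P1 zs) := by
  induction zs with
  | nil => simp [P1]
  | cons z zs ih =>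
    simp only [P1, List.length_cons, Nat.cast_add, Nat.cast_one, ih]
    rw [W_cons _ _ _ _ z.i (a :: P1 zs), W_cons _ _ _ _ a (P1 zs)]
    cases z <;> simp [W, V3.i] <;> ring

/-- The numbers `8, 24, 56, 136, 344, …`. -/
def ell : ℕ → ℕ
  | 0 => 8
  | 1 => 24
  | 2 => 56
  | k + 3 => ell (k + 2) + 2 * ell (k + 1) + 4 * ell k

theorem ell_cs (k : ℕ) : (ell k : ℤ) = 2 * ((cs k).1 + (cs k).2.1 + (cs k).2.2) := by
  induction k using Nat.strong_induction_on with
  | _ k ih =>
    match k, ih with
    | 0, _ => simp [ell, cs]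
    | 1, _ => simp [ell, cs]
    | 2, _ => simp [ell, cs]
    | k + 3, ih =>
      have h0 := ih k (by omega)
      have h1 := ih (k + 1) (by omega)
      have h2 := ih (k + 2) (by omega)
      simp only [ell, Nat.cast_add, Nat.cast_mul, Nat.cast_ofNat, h0, h1, h2]
      simp only [cs]
      ring

/-! ### Translation to `G_n` -/

/-- The element of `G` given by a word. -/
def elt (s : List Gen) : G :=
  (s.map fun g => (⟨gen g, Subgroup.subset_closure ⟨g, rfl⟩⟩ : G)).prod

theorem elt_apply (s : List Gen) (w : List Bool) :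
    (elt s : Equiv.Perm (List Bool)) w = run s w := by
  induction s with
  | nil => rfl
  | cons g s ih =>
    have : elt (g :: s) = (⟨gen g, Subgroup.subset_closure ⟨g, rfl⟩⟩ : G) * elt s := by
      simp [elt]
    rw [this]
    show gen g ((elt s : Equiv.Perm (List Bool)) w) = _
    rw [ih]
    rfl

theorem prod_gbar (n : ℕ) (s : List Gen) : (s.map (gbar n)).prod = (elt s : Gn n) := by
  induction s with
  | nil => rfl
  | cons g s ih =>
    rw [List.map_cons, List.prod_cons, ih]
    rfl

theorem mk_eq_iff (n : ℕ) (g h : G) : (g : Gn n) = (h : Gn n) ↔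
    ∀ w : List Bool, w.length = n →
      (g : Equiv.Perm (List Bool)) w = (h : Equiv.Perm (List Bool)) w := by
  rw [QuotientGroup.eq]
  constructor
  · intro hgh w hw
    have h1 := hgh w hw
    have h2 : (g⁻¹ : Equiv.Perm (List Bool)) ((h : Equiv.Perm (List Bool)) w) = w := h1
    have h3 := congrArg (g : Equiv.Perm (List Bool)) h2
    rw [← Equiv.Perm.mul_apply, mul_inv_cancel, Equiv.Perm.one_apply] at h3
    exact h3.symm
  · intro hgh w hw
    show (g⁻¹ : Equiv.Perm (List Bool)) ((h : Equiv.Perm (List Bool)) w) = w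
    rw [← hgh w hw, ← Equiv.Perm.mul_apply, inv_mul_cancel, Equiv.Perm.one_apply]

theorem exists_word (g : G) : ∃ s : List Gen, ∀ w, (g : Equiv.Perm (List Bool)) w = run s w := by
  obtain ⟨g, hg⟩ := g
  induction hg using Subgroup.closure_induction with
  | mem x hx =>
    obtain ⟨s, rfl⟩ := hx
    exact ⟨[s], fun w => rfl⟩
  | one => exact ⟨[], fun w => rfl⟩
  | mul x y hx hy h1 h2 =>
    obtain ⟨s, hs⟩ := h1
    obtain ⟨t, ht⟩ := h2
    refine ⟨s ++ t, fun w => ?_⟩
    rw [run_append, ← ht, ← hs]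
    rfl
  | inv x hx h1 =>
    obtain ⟨s, hs⟩ := h1
    refine ⟨s.reverse, fun w => ?_⟩
    have h2 : x (x⁻¹ w) = w := by
      rw [← Equiv.Perm.mul_apply, mul_inv_cancel, Equiv.Perm.one_apply]
    show x⁻¹ w = run s.reverse w
    have h3 := hs (x⁻¹ w)
    have h3' : x (x⁻¹ w) = run s (x⁻¹ w) := h3
    rw [h2] at h3'
    conv_rhs => rw [h3']
    rw [run_reverse_run]

/-- Words of length `n`. -/
abbrev Lev (n : ℕ) : Type := {w : List Bool // w.length = n}

theorem finite_lev (n : ℕ) : Finite (Lev n) := by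
  have : Finite (List.Vector Bool n) := inferInstance
  exact this

instance finite_Gn (n : ℕ) : Finite (Gn n) := by
  have := finite_lev n
  let f : Gn n → (Lev n → Lev n) := fun q w =>
    ⟨(q.out : Equiv.Perm (List Bool)) w.1, by rw [length_apply _ q.out.2, w.2]⟩
  refine Finite.of_injective f fun q r hqr => ?_
  rw [← QuotientGroup.out_eq' q, ← QuotientGroup.out_eq' r, mk_eq_iff]
  intro w hw
  exact congrArg Subtype.val (congrFun hqr ⟨w, hw⟩)

theorem D_isGreatest (n : ℕ) : IsGreatest (Set.range (len n)) (D n) := by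
  have hfin : (Set.range (len n)).Finite := Set.finite_range _
  have hne : (Set.range (len n)).Nonempty := Set.range_nonempty _
  exact ⟨Nat.sSup_mem hne hfin.bddAbove, fun x hx => le_csSup hfin.bddAbove hx⟩

theorem exists_lastFlip (k : ℕ) : ∃ g : G, IsLastFlip (k + 3) g :=
  ⟨elt (P1 (zsn k)), fun w hw => by rw [elt_apply]; exact isZ_zsn k w hw⟩

theorem len_lastFlip (k : ℕ) (g : G) (hg : IsLastFlip (k + 3) g) :
    len (k + 3) (g : Gn (k + 3)) = ell k := by
  have hiff : ∀ s : List Gen, (s.map (gbar (k + 3))).prod = (g : Gn (k + 3)) ↔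
      IsZ (k + 3) s := by
    intro s
    rw [prod_gbar, mk_eq_iff]
    constructor
    · intro h w hw
      rw [← elt_apply, h w hw, hg w hw]
    · intro h w hw
      rw [elt_apply, h w hw, hg w hw]
  apply le_antisymm
  · apply Nat.sInf_le
    refine ⟨P1 (zsn k), ?_, (hiff _).2 (isZ_zsn k)⟩
    have h1 := length_P1 (zsn k)
    rw [count_zsn] at h1
    have h2 := ell_cs k
    have : ((P1 (zsn k)).length : ℤ) = ell k := by rw [h1, h2]; ring
    exact_mod_cast this
  · apply le_csInf
    · exact ⟨_, P1 (zsn k), rfl, (hiff _).2 (isZ_zsn k)⟩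
    · rintro m ⟨s, rfl, hs⟩
      have h1 := lower_length k s ((hiff s).1 hs)
      rw [← ell_cs] at h1
      exact_mod_cast h1

theorem ell_le_D (k : ℕ) : ell k ≤ D (k + 3) := by
  obtain ⟨g, hg⟩ := exists_lastFlip k
  rw [← len_lastFlip k g hg]
  exact (D_isGreatest (k + 3)).2 ⟨_, rfl⟩

theorem ell_growth (x : ℝ) (hx : 0 < x) (hx3 : x ^ 3 = x ^ 2 + 2 * x + 4) (k : ℕ) :
    8 * x ^ k ≤ (ell k : ℝ) := by
  have hx5 : x ≤ 5 / 2 := by
    by_contra hcon
    push Not at hcon
    nlinarith [mul_pos hx hx, mul_pos (sub_pos.2 hcon) hx,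
      mul_pos (sub_pos.2 hcon) (mul_pos hx hx)]
  induction k using Nat.strong_induction_on with
  | _ k ih =>
    match k, ih with
    | 0, _ => norm_num [ell]
    | 1, _ => norm_num [ell]; linarith
    | 2, _ => norm_num [ell]; nlinarith
    | k + 3, ih =>
      have h0 := ih k (by omega)
      have h1 := ih (k + 1) (by omega)
      have h2 := ih (k + 2) (by omega)
      simp only [ell, Nat.cast_add, Nat.cast_mul, Nat.cast_ofNat]
      have e : 8 * x ^ (k + 3) = 8 * x ^ (k + 2) + 2 * (8 * x ^ (k + 1)) + 4 * (8 * x ^ k) := by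
        rw [pow_add x k 3, hx3]; ring
      rw [e]
      linarith

end Pool.Agent.Lib.Pb99418
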