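import Pool.Agent.Lib.Pb99418.Defs

/-!
# Words in the generators, their sections, and the element `z_n`
-/

namespace Pool.Agent.Lib.Pb99418

open Gen

/-- The transformation given by a word in the generators. -/
def run (s : List Gen) (w : List Bool) : List Bool := s.foldr act w

@[simp] theorem run_nil (w : List Bool) : run [] w = w := rfl

@[simp] theorem run_cons (g : Gen) (s : List Gen) (w : List Bool) :
    run (g :: s) w = act g (run s w) := rfl

theorem run_append (s t : List Gen) (w : List Bool) : run (s ++ t) w = run s (run t w) := by
  induction s with
  | nil => rfl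
  | cons g s ih => simp [ih]

theorem run_empty (s : List Gen) : run s [] = [] := by
  induction s with
  | nil => rfl
  | cons g s ih => simp [ih, act_nil]

theorem length_run (s : List Gen) (w : List Bool) : (run s w).length = w.length := by
  induction s with
  | nil => rfl
  | cons g s ih => simp [length_act, ih]

theorem run_reverse_run (s : List Gen) (w : List Bool) : run s.reverse (run s w) = w := by
  induction s generalizing w with
  | nil => rfl
  | cons g s ih =>
    rw [List.reverse_cons, run_append, run_cons, run_cons, run_nil, act_act, ih]

theorem run_run_reverse (s : List Gen) (w : List Bool) : run s (run s.reverse w) = w := by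
  have := run_reverse_run s.reverse w
  rwa [List.reverse_reverse] at this

@[simp] theorem act_a_cons (x : Bool) (w : List Bool) : act a (x :: w) = (!x) :: w := by
  simp [act]

/-! ### Sections -/

/-- The section of a generator at a letter. -/
def secG : Gen → Bool → List Gen
  | a, _ => []
  | b, false => [a]
  | b, true => [c]
  | c, false => [a]
  | c, true => [d]
  | d, false => []
  | d, true => [b]

/-- The permutation of the first letter induced by a generator. -/
def pg : Gen → Bool
  | a => true
  | b => false
  | c => false
  | d => false

/-- The permutation of the first letter induced by a word. -/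
def par : List Gen → Bool
  | [] => false
  | g :: s => xor (pg g) (par s)

/-- The section of a word at a letter. -/
def sec (x : Bool) : List Gen → List Gen
  | [] => []
  | g :: s => secG g (xor x (par s)) ++ sec x s

theorem act_cons (g : Gen) (x : Bool) (w : List Bool) :
    act g (x :: w) = (xor x (pg g)) :: run (secG g x) w := by
  cases g <;> cases x <;> simp [act, pg, secG]

theorem par_cons (g : Gen) (s : List Gen) : par (g :: s) = xor (pg g) (par s) := rfl

theorem run_cons_word (s : List Gen) (x : Bool) (w : List Bool) :
    run s (x :: w) = (xor x (par s)) :: run (sec x s) w := by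
  induction s with
  | nil => simp [par, sec]
  | cons g s ih =>
    rw [run_cons, ih, act_cons, par_cons]
    simp only [sec, run_append]
    congr 1
    cases x <;> cases par s <;> cases pg g <;> rfl

theorem par_append (s t : List Gen) : par (s ++ t) = xor (par s) (par t) := by
  induction s with
  | nil => simp [par]
  | cons g s ih =>
    rw [List.cons_append, par_cons, ih, par_cons g s]
    cases pg g <;> cases par s <;> cases par t <;> rfl

theorem sec_append (x : Bool) (s t : List Gen) :
    sec x (s ++ t) = sec (xor x (par t)) s ++ sec x t := by
  induction s with
  | nil => simp [sec]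
  | cons g s ih =>
    simp only [List.cons_append, sec, ih, par_append]
    rw [← List.append_assoc]
    congr 3
    cases x <;> cases par s <;> cases par t <;> rfl

/-! ### The last letter flip -/

theorem flipLast_cons (x : Bool) (w : List Bool) (hw : w ≠ []) :
    flipLast (x :: w) = x :: flipLast w := by
  cases w with
  | nil => exact absurd rfl hw
  | cons y w => rfl

theorem flipLast_flipLast (w : List Bool) : flipLast (flipLast w) = w := by
  induction w with
  | nil => rfl
  | cons x w ih =>
    cases w with
    | nil => simp [flipLast]
    | cons y w =>
      rw [flipLast_cons x (y :: w) (by simp), flipLast_cons, ih]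
      intro h
      cases w <;> simp [flipLast] at h

theorem length_flipLast (w : List Bool) : (flipLast w).length = w.length := by
  induction w with
  | nil => rfl
  | cons x w ih =>
    cases w with
    | nil => rfl
    | cons y w => rw [flipLast_cons x (y :: w) (by simp)]; simp [ih]

theorem flipLast_ne_nil {w : List Bool} (hw : w ≠ []) : flipLast w ≠ [] := by
  intro h
  apply hw
  have := length_flipLast w
  rw [h] at this
  exact List.length_eq_zero_iff.1 this.symm

theorem flipLast_act (g : Gen) (w : List Bool) : flipLast (act g w) = act g (flipLast w) := by
  induction w generalizing g with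
  | nil => simp [act_nil, flipLast]
  | cons x w ih =>
    cases w with
    | nil => cases g <;> cases x <;> simp [act, flipLast]
    | cons y w =>
      have hne : ∀ h : Gen, act h (y :: w) ≠ [] := by
        intro h h'
        have := length_act h (y :: w)
        rw [h'] at this
        simp at this
      have key : ∀ (h : Gen) (z : Bool), flipLast (z :: act h (y :: w)) =
          z :: act h (flipLast (y :: w)) := fun h z => by
        rw [flipLast_cons _ _ (hne h), ih]
      rw [flipLast_cons x (y :: w) (by simp)]
      cases g <;> cases x
      · exact flipLast_cons _ _ (by simp)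
      · exact flipLast_cons _ _ (by simp)
      · exact key a false
      · exact key c true
      · exact key a false
      · exact key d true
      · exact flipLast_cons _ _ (by simp)
      · exact key b true

theorem flipLast_run (s : List Gen) (w : List Bool) : flipLast (run s w) = run s (flipLast w) := by
  induction s with
  | nil => rfl
  | cons g s ih => rw [run_cons, flipLast_act, ih, run_cons]

/-- The word `s` represents the element `z_n` of `G_n`. -/
def IsZ (n : ℕ) (s : List Gen) : Prop := ∀ w : List Bool, w.length = n → run s w = flipLast w

theorem IsZ.rotate {n : ℕ} {s t : List Gen} (h : IsZ n (s ++ t)) : IsZ n (t ++ s) := by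
  intro w hw
  have h1 := h (run s w) (by rw [length_run, hw])
  rw [run_append] at h1
  rw [run_append]
  have h2 : run s (run t (run s w)) = run s (flipLast w) := by rw [h1, flipLast_run]
  have h3 := congrArg (run s.reverse) h2
  rwa [run_reverse_run, run_reverse_run] at h3

theorem IsZ.congr {n : ℕ} {s t : List Gen} (h : IsZ n s) (hst : ∀ w, run t w = run s w) :
    IsZ n t := fun w hw => by rw [hst, h w hw]

theorem IsZ.par {n : ℕ} (hn : 2 ≤ n) {s : List Gen} (h : IsZ n s) : par s = false := by
  have h1 := h (false :: false :: List.replicate (n - 2) false) (by simp; omega)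
  rw [run_cons_word, flipLast_cons _ _ (by simp)] at h1
  simpa using (List.cons.inj h1).1

theorem IsZ.sec {n : ℕ} (hn : 1 ≤ n) {s : List Gen} (h : IsZ (n + 1) s) (x : Bool) :
    IsZ n (sec x s) := by
  intro w hw
  have hne : w ≠ [] := by
    intro h0
    rw [h0] at hw
    simp at hw
    omega
  have h1 := h (x :: w) (by simp [hw])
  rw [run_cons_word, flipLast_cons _ _ hne] at h1
  exact (List.cons.inj h1).2

/-! ### Counting letters -/

/-- Weighted number of letters. -/
def W (wa wb wc wd : ℤ) (s : List Gen) : ℤ :=
  (s.map fun g => match g with | a => wa | b => wb | c => wc | d => wd).sum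

@[simp] theorem W_nil (wa wb wc wd : ℤ) : W wa wb wc wd [] = 0 := rfl

theorem W_cons (wa wb wc wd : ℤ) (g : Gen) (s : List Gen) :
    W wa wb wc wd (g :: s) = W wa wb wc wd [g] + W wa wb wc wd s := by
  simp [W]

theorem W_append (wa wb wc wd : ℤ) (s t : List Gen) :
    W wa wb wc wd (s ++ t) = W wa wb wc wd s + W wa wb wc wd t := by
  simp [W]

theorem W_sec (wa wb wc wd : ℤ) (s : List Gen) :
    W wa wb wc wd (sec false s) + W wa wb wc wd (sec true s) =
      W 0 (wa + wc) (wa + wd) wb s := by
  induction s with
  | nil => simp [sec]
  | cons g s ih =>
    rw [W_cons 0, ← ih]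
    simp only [sec, W_append]
    cases g <;> cases par s <;> simp [secG, W] <;> ring

theorem W_nonneg {wa wb wc wd : ℤ} (ha : 0 ≤ wa) (hb : 0 ≤ wb) (hc : 0 ≤ wc) (hd : 0 ≤ wd)
    (s : List Gen) : 0 ≤ W wa wb wc wd s := by
  induction s with
  | nil => simp
  | cons g s ih =>
    rw [W_cons]
    have : 0 ≤ W wa wb wc wd [g] := by cases g <;> simpa [W]
    omega

theorem W_add (wa wb wc wd wa' wb' wc' wd' : ℤ) (s : List Gen) :
    W (wa + wa') (wb + wb') (wc + wc') (wd + wd') s = W wa wb wc wd s + W wa' wb' wc' wd' s := by
  induction s with
  | nil => simp
  | cons g s ih =>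
    rw [W_cons, ih, W_cons wa, W_cons wa']
    cases g <;> simp [W] <;> ring

theorem W_smul (k wa wb wc wd : ℤ) (s : List Gen) :
    W (k * wa) (k * wb) (k * wc) (k * wd) s = k * W wa wb wc wd s := by
  induction s with
  | nil => simp
  | cons g s ih =>
    rw [W_cons, ih, W_cons wa]
    cases g <;> simp [W] <;> ring

theorem W_length (s : List Gen) : W 1 1 1 1 s = s.length := by
  induction s with
  | nil => simp
  | cons g s ih =>
    rw [W_cons, ih]
    cases g <;> simp [W] <;> ring

end Pool.Agent.Lib.Pb99418
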